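import Pool.Agent.H34.R3.Link
import Pool.Agent.H95.TB.T3Main

/-! The arc complex of the pair of pants with one puncture. -/

namespace Pool.Agent.H34.R3

open Pool.Agent.H34.PLE Pool.Agent.H96.Arc Pool.Agent.H95.TB

theorem toT3 : PLHomeo (arcComplex 0 3 1) (glueL 7 24 T3.rowsT) :=
  (A031.homeo.trans P.homeo).trans Link.homeo

theorem hopf : Nonempty ((arcComplex 0 3 1).Real ≃ₜ HopfSphere 3) := by
  obtain ⟨e⟩ := toT3.homeomorph
  obtain ⟨f⟩ := T3.homeo
  exact ⟨e.trans f⟩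

end Pool.Agent.H34.R3
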