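import Pool.Agent.H34.R3.PT

/-! Chunks of a path of moves (generated). -/

namespace Pool.Agent.H34.R3.P

open Pool.Agent.H34.PLE

theorem l9 : Link 7 24 t9 463105 t10 472705 :=
  P7.link (d := 10) (pd := 1024) (L := 99) (pL := 0x8000000000000000000000000) (l := [0x5c150440f02c050780507800a28060f02207816028060f07e1102c0500c1e02c0500c1e0439e0580a0183c0183c0281c8781c0305c0f0541102c0700c3e6b82a08816038060580e018230f02c0700c1103c0b00c07039a207816018220b81e0580618d440f02c030541103c0b00c1e4b82a0881e0580607816018034f02c0700c0f0540b01c030f81e0580e01822078160380608f541103c0b01c0302c030250e1101c0b82a0881e0381c1105dd70541103c070380f01c0e0449e03844070440781c0c40e1743c22070170541103c1c08816eb82a0881e0e02a0881e0e052550440f0881c06c1c07a2205a020801c0a822078020702016b541103c010381103c0103812a881e0082007002078200705a0f004200701103c0107020055a2078020e02a0881e00838155541103c010801c0641c080150f0200b82a0881e008200f05ed70541103c010400f004100429e0083c0803c07802080151783c1e070170541103c1c078176b82a0881e0e02a0881e0e051550440f0781c0441c0781685c16038020b82a078160080e1735c1503c0b0041503c0b00411aa81e0580e008020384204c5c07004220700b01c010702205996038020e01e0580e0083814d3c0b01c01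0881c05c1f04616070040580e008440e0040706dcb01c010881c0082207002024c40e01c010380101e0703a1b4801c0500700422080140702ae3802110400a002110400a02a41088200701408001050150aa20070460580e11038070201bb8c0b01c220700e0881c03808b10380801c0e0201100e0706e1e070140022302c1e0501c0ad81118160f028118160f0280a58c0b0781c0501c02c140782b1083a03805004461080e0e86cc28022308407002230840702681118420e80e0e8420040e1b07c1d0541408c1f074140542a7183e0e828014460f83a0a02b4288c1f074150502307c140a81e100240143a0a81e090400d70a1d0540f0481d0540f048252e82a0784009040078240e835220701201a02854220481c06d8d0142a110240142a110241250a150881c04812070150881b004460e82a014011182a0e834c2802230540680a0088c150968d014011183a0a801014460d040, 0x300f0040b01c0500c220303de78160380a018440604406024010880c01c0500c01030220378e02806008180181e008181910c010300b01c0500c010301dc78160380a018020600206004410880c01c0500c010880c0f60e018021101801802110180931403004220300c0692200c0d8f0180780a0580e0083c06076cf02c070041e030010780c0520a0083c0600e028020603c05b1c050040c01c0f0140103034a380a008180580e02802060368f02c0701401030050040c0128a0083c0600a058020f0181d814010780c01c050041e03014e580e028020f0180f00206016030201101c0f02c0500c080dba207816028060400a018100c81c0500c0802c070140800c06e580e02810058220380a040724b01c050200f02c070140805b22078160380a0400e028100491c0500c0801c0f01403020368380a018100580e0280604032cf02c0701403020080610701a3c0b80a0a822078160183c1fb5c150440f02c030780307810828060f022078160283c0181ed103c0b0141e02c170141e0c2960283c0a822078160283c0fa20])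 (by decide +kernel)

end Pool.Agent.H34.R3.P
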