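import Pool.Agent.H34.R3.P0
import Pool.Agent.H34.R3.P1
import Pool.Agent.H34.R3.P2
import Pool.Agent.H34.R3.P3
import Pool.Agent.H96.Arc.A031

/-! The path from the first to the last complex (generated). -/

set_option maxRecDepth 1000000

namespace Pool.Agent.H34.R3.P

open Pool.Agent.H34.PLE

/-- the codes of the facets of the last complex -/
def Ls1 : List ℕ := [0x70f97070507070f95070e6b070880070880070eb6070eb6, 0x71a20070f95071b4d071447071690071690071a6e071a6e, 0x70e680710c20710c1070f970709ac0709ac070fe2070fe2, 0x70e6b070e6a070633070e68070754070754070d8a070d8a, 0x72e73072e73072f3906eec30622de072824072cca072cca, 0x6ee0906ee0906eecf064c3206eec306eeb906ec5706ec57, 0x735850735850732b2061f640724ae072f390733d30733d3, 0x723810724ae07238307224906a3c5071d980723ce0723ce, 0x72133072260072135071d98071b4d072249072177072177, 0x714470710c10710c20714440711e00711e0071366071366, 0x71444071a22070e6a071a20071564071564071942071942, 0x6f18306f18306eeb906f248064cfa06f23c06efda06efda, 0x702b306f2480702b10702b006b79d06fdf40701d20701d2, 0x7051506fcd407051306fdf40705070702b007042b07042b,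 0x723830703de07238107211d06a4f2071c6c0722a20722a2, 0x7320b07320b07282407226006fcde0732b2073050073050, 0x72135070640072133071c6c071a2207211d07204b07204b, 0x6fc2306fc2306f23c06fcde06fcd406eecf06fa6806fa68, 0x7051307064007051506ff200706330703dc070557070557, 0x702b10703de0702b30703dc06b54606ff200702fe0702fe, 0x6b56e064d1806b0bd06b6f306b6f306b66706b79d06b67b, 0x6b0bd06a9c006b56e06b49c06b49c06b41006b54606b424, 0x64a0c064a0c064c46064d18064c5a064c8c064cfa064ca0, 0x646240646240647aa0647aa0644bc0636b606484a064156, 0x6ad45062eb406aae106ac6706ac6706a85706ad1106a86b, 0x6aae106ae7006ad4506ad9406ad9406a98406ae3e06a998, 0x6af9106ae7006b44206b37006b37006b42406ae3e06b410, 0x6b442064cb406af9106b5c706b5c706b67b06ad1106b667, 0x6a8950628d806a63106a7b706a7b706a86b06a3c506a857, 0x6a63106a9c006a89506a8e406a8e406a99806a4f206a984, 0x64944064944064c5a06484a064c46064bc4064c32064bd8, 0x6329c06329c06321a06335006322e0630d00633320630e4, 0x649a80649a8064be2064cb4064bf6064ca0063206064c8c, 0x648e00648e0064bf60644d0064be2064bd8063332064bc4, 0x642a00642a00644260644260641380644d0063a440644bc,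 0x6381406381406399a06399a0636ac063a44063350063a30, 0x63b98063b98063d1e063d1e063a30063dc8063dbe0636ca, 0x634900634900636160636160636ca0630f80636b60636ac, 0x62f18062f18062fd60628d8062fc2062fb8061f64062fa4, 0x63044063044062fc20630f8062fd60630e40622de0630d0, 0x6317006317006322e062eb406321a062fa4063206062fb8, 0x63f1c063f1c0640a20640a2064156063dbe063dc8064138]

theorem link : Link 7 24 t0 2305 t10 472705 :=
  (((((((((l0.trans l1).trans l2).trans l3).trans l4).trans l5).trans l6).trans l7).trans l8).trans l9)

theorem homeo : PLHomeo (glueL 7 24 Pool.Agent.H96.Arc.A031.Rs) (glueL 7 24 Ls1) :=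
  path_glueL (W := 192) (pW := 0x1000000000000000000000000000000000000000000000000) (cap := 20) (pC := 2 ^ 3840) (pw := 0x1000000) link rfl (by decide) (by decide +kernel) (by decide +kernel)
    (by decide +kernel) (by decide +kernel) (by decide +kernel) (by decide +kernel) (by decide +kernel) (by decide +kernel)

end Pool.Agent.H34.R3.P
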